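import Pool.Agent.Helper55.LW.Sieve
import Pool.Agent.SPA.M20
import Pool.Agent.Helper64.Breadth.Mertens

/-!
# MP_28a32f_nt: Mertens bounds for the sieving primes
-/

set_option autoImplicit false

namespace Pool.Agent.Helper55.LW

open Finset

theorem sum_bounds : ∃ C : ℝ, 1 ≤ C ∧ ∀ H z : ℕ, 3 ≤ H → 3 ≤ z →
    Real.log (Real.log z) - Real.log (Real.log H) - C ≤ ∑ q ∈ Pr H z, (1 : ℝ) / q ∧
    ∑ q ∈ Pr H z, (1 : ℝ) / q ≤ Real.log (Real.log z) + C := by
  obtain ⟨C, hC0, hC⟩ := SPA.M20.sum_le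
  refine ⟨C + 1, by linarith, fun H z hH hz => ⟨?_, ?_⟩⟩
  · have h1 := Helper64.Breadth.loglog_le hz
    have h2 := hC H hH
    have h3 : z.primesBelow ⊆ Pr H z ∪ (Icc 1 H).filter Nat.Prime := by
      intro q hq
      have h4 := Nat.prime_of_mem_primesBelow hq
      have h5 := Nat.lt_of_mem_primesBelow hq
      rw [mem_union]
      by_cases h6 : H < q
      · left
        unfold Pr
        rw [mem_filter, mem_Icc]
        exact ⟨⟨h4.pos, by omega⟩, h4, h6⟩
      · right
        rw [mem_filter, mem_Icc]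
        exact ⟨⟨h4.pos, by omega⟩, h4⟩
    have h7 := sum_le_sum_of_subset_of_nonneg (f := fun q : ℕ => (1 : ℝ) / q) h3 (fun i _ _ => by positivity)
    have h8 : ∑ q ∈ Pr H z ∪ (Icc 1 H).filter Nat.Prime, (1 : ℝ) / q ≤
        ∑ q ∈ Pr H z, (1 : ℝ) / q + ∑ q ∈ (Icc 1 H).filter Nat.Prime, (1 : ℝ) / q := by
      have h9 := sum_union_inter (s₁ := Pr H z) (s₂ := (Icc 1 H).filter Nat.Prime) (f := fun q : ℕ => (1 : ℝ) / q)
      have h10 : (0 : ℝ) ≤ ∑ q ∈ Pr H z ∩ (Icc 1 H).filter Nat.Prime, (1 : ℝ) / q :=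
        sum_nonneg (fun i _ => by positivity)
      linarith
    linarith
  · have h1 := hC z hz
    have h2 : Pr H z ⊆ (Icc 1 z).filter Nat.Prime := by
      intro q hq
      unfold Pr at hq
      rw [mem_filter] at hq ⊢
      exact ⟨hq.1, hq.2.1⟩
    have h3 := sum_le_sum_of_subset_of_nonneg (f := fun q : ℕ => (1 : ℝ) / q) h2 (fun i _ _ => by positivity)
    linarith

/-- the sieve with real parameters: `v = log z` -/
theorem sieve2 : ∃ C : ℝ, 1 ≤ C ∧ ∀ (x h H : ℕ) (v : ℝ), 1 ≤ h → h ≤ H → 3 ≤ H → 2 ≤ v →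
    ((pairs x h).card : ℝ) ≤ Real.exp v + (x * (C * (Real.log H) ^ 2 / v ^ 2 + C / v ^ 6) +
      Real.exp ((32 * Real.log v + C) * (v + 2))) := by
  obtain ⟨C, hC1, hC⟩ := sum_bounds
  refine ⟨Real.exp (34 * C + 40), ?_, fun x h H v h1 hH hH3 hv => ?_⟩
  · exact Real.one_le_exp (by linarith)
  set z := ⌊Real.exp v⌋₊ with hz
  have hev : v + 1 ≤ Real.exp v := Real.add_one_le_exp v
  have hz3 : 3 ≤ z := Nat.le_floor (by push_cast; linarith)
  have hzle : (z : ℝ) ≤ Real.exp v := Nat.floor_le (Real.exp_pos _).le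
  have hzge : Real.exp v < z + 1 := Nat.lt_floor_add_one _
  have hz0 : (0 : ℝ) < z := by exact_mod_cast (show 0 < z by omega)
  have hlz : Real.log z ≤ v := by
    rw [Real.log_le_iff_le_exp hz0]
    exact hzle
  have hlz' : v / 2 ≤ Real.log z := by
    rw [Real.le_log_iff_exp_le hz0]
    have h3 : Real.exp v = Real.exp (v / 2) * Real.exp (v / 2) := by
      rw [← Real.exp_add]
      ring_nf
    have h4 : v / 2 + 1 ≤ Real.exp (v / 2) := Real.add_one_le_exp _
    nlinarith
  have hv2 : (1 : ℝ) ≤ v / 2 := by linarith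
  have hlv0 : 0 ≤ Real.log (v / 2) := Real.log_nonneg hv2
  have hll : Real.log (v / 2) ≤ Real.log (Real.log z) := Real.log_le_log (by linarith) hlz'
  have hlu : Real.log (Real.log z) ≤ Real.log v := Real.log_le_log (by linarith) hlz
  have hlv : 0 ≤ Real.log v := Real.log_nonneg (by linarith)
  have hlogH : 1 ≤ Real.log H := by
    rw [Real.le_log_iff_exp_le (by exact_mod_cast (by omega : 0 < H))]
    have h5 := Real.exp_one_lt_d9
    have h6 : (3 : ℝ) ≤ H := by exact_mod_cast hH3
    linarith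
  obtain ⟨hlo, hup⟩ := hC H z hH3 hz3
  set S : ℝ := ∑ q ∈ Pr H z, (1 : ℝ) / q with hS
  have hS0 : 0 ≤ S := sum_nonneg (fun i _ => by positivity)
  have hSup : S ≤ Real.log v + C := by linarith
  have hSlo : Real.log (v / 2) - Real.log (Real.log H) - C ≤ S := by linarith
  set t := ⌈8 * (Real.log v + C)⌉₊ with ht
  have ht1 : 8 * (Real.log v + C) ≤ t := Nat.le_ceil _
  have ht2 : (t : ℝ) < 8 * (Real.log v + C) + 1 := Nat.ceil_lt_add_one (by positivity)
  have hmain := sieve (x := x) (z := z) (t := t) h1 hH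
  -- the first term
  have hfirst : Real.exp (-(2 * S)) ≤ Real.exp (34 * C + 40) * (Real.log H) ^ 2 / v ^ 2 := by
    have h3 : Real.exp (-(2 * S)) ≤ Real.exp (2 * C + 2 * Real.log (Real.log H) - 2 * Real.log (v / 2)) := by
      apply Real.exp_le_exp.2
      linarith
    refine h3.trans ?_
    have h4 : Real.exp (2 * C + 2 * Real.log (Real.log H) - 2 * Real.log (v / 2)) =
        Real.exp (2 * C) * (Real.log H) ^ 2 * (4 / v ^ 2) := by
      rw [Real.exp_sub, Real.exp_add]
      have h5 : Real.exp (2 * Real.log (Real.log H)) = (Real.log H) ^ 2 := by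
        rw [show 2 * Real.log (Real.log H) = Real.log (Real.log H) + Real.log (Real.log H) by ring, Real.exp_add,
          Real.exp_log (by linarith)]
        ring
      have h6 : Real.exp (2 * Real.log (v / 2)) = (v / 2) ^ 2 := by
        rw [show 2 * Real.log (v / 2) = Real.log (v / 2) + Real.log (v / 2) by ring, Real.exp_add,
          Real.exp_log (by linarith)]
        ring
      rw [h5, h6]
      field_simp
      ring
    rw [h4]
    have h7 : Real.exp (2 * C) * 4 ≤ Real.exp (34 * C + 40) := by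
      have h8 : (4 : ℝ) ≤ Real.exp 3 := by
        have := Real.add_one_le_exp (3 : ℝ)
        linarith
      calc Real.exp (2 * C) * 4 ≤ Real.exp (2 * C) * Real.exp 3 := by gcongr
        _ = Real.exp (2 * C + 3) := by rw [Real.exp_add]
        _ ≤ Real.exp (34 * C + 40) := Real.exp_le_exp.2 (by linarith)
    calc Real.exp (2 * C) * (Real.log H) ^ 2 * (4 / v ^ 2) = (Real.exp (2 * C) * 4) * (Real.log H) ^ 2 / v ^ 2 := by ring
      _ ≤ Real.exp (34 * C + 40) * (Real.log H) ^ 2 / v ^ 2 := by gcongr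
  -- the second term
  have hsec : (2 * S) ^ (2 * t + 1) / (2 * t + 1).factorial ≤ Real.exp (34 * C + 40) / v ^ 6 := by
    have h3 := Real.pow_div_factorial_le_exp (8 * (2 * S)) (by linarith) (2 * t + 1)
    have h4 : (2 * S) ^ (2 * t + 1) / (2 * t + 1).factorial =
        ((8 * (2 * S)) ^ (2 * t + 1) / (2 * t + 1).factorial) / 8 ^ (2 * t + 1) := by
      rw [mul_pow 8 (2 * S)]
      field_simp
    have h5 : Real.exp (2 * (2 * t + 1 : ℕ)) ≤ (8 : ℝ) ^ (2 * t + 1) := by
      have h6 : Real.exp (2 * (2 * t + 1 : ℕ)) = (Real.exp 2) ^ (2 * t + 1) := by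
        rw [← Real.exp_nat_mul]
        ring_nf
      rw [h6]
      have h7 : Real.exp 2 ≤ 8 := by
        have h8 : Real.exp 2 = Real.exp 1 * Real.exp 1 := by
          rw [← Real.exp_add]
          norm_num
        have h9 := Real.exp_one_lt_d9
        have h10 := Real.exp_pos 1
        nlinarith
      exact pow_le_pow_left₀ (Real.exp_pos _).le h7 _
    have h8pos : (0 : ℝ) < 8 ^ (2 * t + 1) := by positivity
    rw [h4, div_le_iff₀ h8pos]
    refine h3.trans ?_
    have hv6 : v ^ 6 = Real.exp (6 * Real.log v) := by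
      rw [mul_comm, ← Real.rpow_def_of_pos (by linarith)]
      norm_num
    have h6 : Real.exp (8 * (2 * S)) ≤ Real.exp (-(6 * Real.log v)) * Real.exp (2 * (2 * t + 1 : ℕ)) := by
      rw [← Real.exp_add]
      apply Real.exp_le_exp.2
      push_cast
      nlinarith
    refine h6.trans ?_
    have h9 : Real.exp (-(6 * Real.log v)) ≤ Real.exp (34 * C + 40) / v ^ 6 := by
      rw [hv6, ← Real.exp_sub]
      exact Real.exp_le_exp.2 (by linarith)
    gcongr
  -- the third term
  have hthird : (1 + 2 * (z : ℝ)) ^ (2 * t) ≤ Real.exp ((32 * Real.log v + Real.exp (34 * C + 40)) * (v + 2)) := by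
    have h3 : 1 + 2 * (z : ℝ) ≤ Real.exp (v + 2) := by
      rw [Real.exp_add]
      have h4 := Real.add_one_le_exp (2 : ℝ)
      have h5 : (1 : ℝ) ≤ Real.exp v := Real.one_le_exp (by linarith)
      nlinarith
    have h4 : (1 + 2 * (z : ℝ)) ^ (2 * t) ≤ (Real.exp (v + 2)) ^ (2 * t) := pow_le_pow_left₀ (by positivity) h3 _
    refine h4.trans ?_
    rw [← Real.exp_nat_mul]
    apply Real.exp_le_exp.2
    push_cast
    have h5 : 2 * (t : ℝ) ≤ 32 * Real.log v + Real.exp (34 * C + 40) := by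
      have h6 := Real.add_one_le_exp (34 * C + 40)
      linarith
    have h6 : 0 ≤ v + 2 := by linarith
    exact mul_le_mul_of_nonneg_right h5 h6
  refine hmain.trans ?_
  have hx : (0 : ℝ) ≤ x := by positivity
  have h12 := mul_le_mul_of_nonneg_left (add_le_add hfirst hsec) hx
  linarith

end Pool.Agent.Helper55.LW
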