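import Pool.Agent.SPM.Brun34

/-!
# MP_28a32f_nt: pairs of primes at a bounded distance, by the pure Brun sieve
-/

set_option autoImplicit false

namespace Pool.Agent.Helper55.LW

open Finset

/-- the sieving primes -/
def Pr (H z : ℕ) : Finset ℕ := (Icc 1 z).filter (fun q => q.Prime ∧ H < q)

/-- the sieved classes -/
def Cl (h q : ℕ) : Finset ℕ := {0, q - h}

/-- pairs -/
noncomputable def pairs (x h : ℕ) : Finset ℕ := (Icc 1 x).filter (fun n => n.Prime ∧ (n + h).Prime)

theorem card_Cl {h q : ℕ} (_h1 : 1 ≤ h) (h2 : h < q) : (Cl h q).card = 2 := by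
  unfold Cl
  rw [card_insert_of_notMem, card_singleton]
  rw [mem_singleton]
  omega

theorem sieve {x h H z t : ℕ} (h1 : 1 ≤ h) (hH : h ≤ H) :
    ((pairs x h).card : ℝ) ≤ z + (x * (Real.exp (-(2 * ∑ q ∈ Pr H z, (1 : ℝ) / q)) +
      (2 * ∑ q ∈ Pr H z, (1 : ℝ) / q) ^ (2 * t + 1) / (2 * t + 1).factorial) + (1 + 2 * (z : ℝ)) ^ (2 * t)) := by
  classical
  have hb := SPM.B34.brun34 (Pr H z) (fun q hq => (mem_filter.1 hq).2.1) (Cl h) (fun q hq r hr => by
    have h3 := (mem_filter.1 hq).2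
    have h4 := h3.1.pos
    unfold Cl at hr
    rw [mem_insert, mem_singleton] at hr
    omega) x t
  have e1 : ∑ q ∈ Pr H z, ((Cl h q).card : ℝ) / q = 2 * ∑ q ∈ Pr H z, (1 : ℝ) / q := by
    rw [mul_sum]
    refine sum_congr rfl (fun q hq => ?_)
    rw [card_Cl h1 (by have := (mem_filter.1 hq).2.2; omega)]
    push_cast
    ring
  have e2 : 1 + ∑ q ∈ Pr H z, ((Cl h q).card : ℝ) ≤ 1 + 2 * (z : ℝ) := by
    have h5 : ∑ q ∈ Pr H z, ((Cl h q).card : ℝ) = ∑ q ∈ Pr H z, (2 : ℝ) := by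
      refine sum_congr rfl (fun q hq => ?_)
      rw [card_Cl h1 (by have := (mem_filter.1 hq).2.2; omega)]
      norm_num
    rw [h5, sum_const, nsmul_eq_mul]
    have h6 : (Pr H z).card ≤ z := by
      refine (card_filter_le _ _).trans ?_
      simp
    have h7 : ((Pr H z).card : ℝ) ≤ z := by exact_mod_cast h6
    linarith
  rw [e1] at hb
  have hsub : pairs x h ⊆ Icc 1 z ∪ (Icc 1 x).filter (fun k => ∀ q ∈ Pr H z, k % q ∉ Cl h q) := by
    intro n hn
    unfold pairs at hn
    rw [mem_filter, mem_Icc] at hn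
    obtain ⟨⟨hn1, hn2⟩, hp, hp2⟩ := hn
    rw [mem_union]
    by_cases hz : n ≤ z
    · left
      exact mem_Icc.2 ⟨hn1, hz⟩
    · right
      rw [mem_filter, mem_Icc]
      refine ⟨⟨hn1, hn2⟩, fun q hq => ?_⟩
      unfold Pr at hq
      rw [mem_filter, mem_Icc] at hq
      obtain ⟨⟨_, hq1⟩, hq2, hq3⟩ := hq
      unfold Cl
      rw [mem_insert, mem_singleton]
      rintro (h8 | h8)
      · have h9 : q ∣ n := Nat.dvd_of_mod_eq_zero h8
        rcases (Nat.dvd_prime hp).1 h9 with h10 | h10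
        · exact hq2.one_lt.ne' h10
        · omega
      · have h9 : q ∣ n + h := by
          have h10 : (n + h) % q = 0 := by
            rw [Nat.add_mod, h8, Nat.mod_eq_of_lt (show h < q by omega)]
            have : q - h + h = q := by omega
            rw [this, Nat.mod_self]
          exact Nat.dvd_of_mod_eq_zero h10
        rcases (Nat.dvd_prime hp2).1 h9 with h10 | h10
        · exact hq2.one_lt.ne' h10
        · omega
  have hc := card_le_card hsub
  have hc2 := hc.trans (card_union_le _ _)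
  rw [Nat.card_Icc, Nat.add_sub_cancel] at hc2
  have hc3 : ((pairs x h).card : ℝ) ≤ z + (((Icc 1 x).filter (fun k => ∀ q ∈ Pr H z, k % q ∉ Cl h q)).card : ℝ) := by
    exact_mod_cast hc2
  refine hc3.trans ?_
  have h0 : (0 : ℝ) ≤ 1 + ∑ q ∈ Pr H z, ((Cl h q).card : ℝ) := by positivity
  have h11 := pow_le_pow_left₀ h0 e2 (2 * t)
  linarith

end Pool.Agent.Helper55.LW
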